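import Pool.Agent.H30R2.BC.HN

set_option autoImplicit false

/-! # Hilbert's Nullstellensatz over the complex numbers: the bit cost

Computation trees over `ℂ` apply `+`, `-`, `×`, `÷` to the coefficients of a system of polynomial
equations and to integer constants and test whether a computed number is zero. (A machine over `ℂ`
with rational constants gives such a tree for every input size.) On integer inputs all the
computed numbers are rational, and the bit cost of the run is the sum of the numbers of bits of
the numerators of all the tested numbers and of all the divisors; everything else is free.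

The systems considered are `y_i ^ 2 = y_i` (`i < k`), `∑ 2 ^ i y_i = z`, with `k + 1` equations,
`k` unknowns and an integer `0 ≤ z < 2 ^ (k + 1)`. Every randomized tree which answers correctly
within bit cost `C` with probability at least `1 - ε` on each of them has
`C ≥ (1 - 2 ε) 2 ^ k / 32` (if `k ≥ 16`), while bit cost `2 ^ k (k + 1)` is sufficient. -/

namespace Pool.Agent.Results.MP_57f271_lc.BitCost

open Pool.Agent.H30R2.BC

theorem result :
    (∀ k : ℕ, 16 ≤ k →
      ∀ (Ω : Type) [Fintype Ω] [Nonempty Ω]
        (t : Ω → Pool.Agent.H30R2.BC.Tree (Fin (k + 1) × (Fin k →₀ ℕ))) (C ε : ℝ), ε < 1 / 2 →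
        (∀ z : ℕ, z < 2 ^ (k + 1) → (1 - ε) * Nat.card Ω ≤ Nat.card {ω //
          ((t ω).accepts (coeffs (sys ℂ k z)) = true ↔ Solvable (sys ℂ k z)) ∧
            ((t ω).cost (coeffs (sys ℚ k z)) : ℝ) ≤ C}) →
        (1 - 2 * ε) * 2 ^ k / 32 ≤ C) ∧
    (∀ k : ℕ, ∃ t : Pool.Agent.H30R2.BC.Tree (Fin (k + 1) × (Fin k →₀ ℕ)),
      ∀ z : ℕ, z < 2 ^ (k + 1) →
      (t.accepts (coeffs (sys ℂ k z)) = true ↔ Solvable (sys ℂ k z)) ∧
        t.cost (coeffs (sys ℚ k z)) ≤ 2 ^ k * (k + 1)) :=
  ⟨fun k hk Ω _ _ t C ε hε h => hn_lower_bound k hk Ω t C ε hε h,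
    fun k => ⟨search k, fun z hz => hn_upper_bound k z hz⟩⟩

end Pool.Agent.Results.MP_57f271_lc.BitCost
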