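import Pool.Agent.H695R3.OPT.Field
import Pool.Agent.H695R3.OPT.Len
import Pool.Agent.H695R3.OPT.C2
import Pool.Agent.H695R3.OPT.D2
import Pool.Agent.H695R3.OPT.D7

/-!
# Hilbert's Nullstellensatz is the question whether a cubic hypersurface is singular

Polynomials over a field `K` are lists of terms, a term is a coefficient with the list of its
variables (`Pol K`); `Deg d n p`: all terms have degree at most `d` and variables less than `n`.

* `SolvK n S` : the equations `q = 0`, `q ∈ S`, have a common solution in `K ^ n`;
* `CritK n p` : the formal partial derivatives `pd i p`, `i < n`, have a common zero in `K ^ n`;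
* `SingK n p` : the hypersurface `p = 0` in `K ^ n` has a singular point with coordinates in `K`;
* `lagr S` : the cubic polynomial `∑ Y_a q_a(X)`, the variables `Y_a` are `0, …, |S| - 1`, the
  variables `X` are shifted by `|S|`;
* `critSys n p` : the list of the partial derivatives of `p`.
-/

namespace Pool.Agent.Results.MP_57f271_lc.CubicSingularities

open Pool.Agent.NPC.H695OPT

/-- **Main theorem.** Over every field, systems of quadratic equations and the questions whether a
cubic polynomial has a critical point and whether a cubic hypersurface has a singular point are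
equivalent by explicit reductions. -/
theorem result (K : Type) [Field K] (n : ℕ) :
    (∀ S : List (Pol K), (∀ q ∈ S, Deg 2 n q) →
      Deg 3 (S.length + n) (lagr S) ∧ (lagr S).length = (S.map List.length).sum ∧
      List.TFAE [SolvK n S, CritK (S.length + n) (lagr S), SingK (S.length + n) (lagr S)]) ∧
    (∀ p : Pol K, Deg 3 n p → (∀ q ∈ critSys n p, Deg 2 n q) ∧
      (CritK n p ↔ SolvK n (critSys n p)) ∧ (SingK n p ↔ SolvK n (p :: critSys n p))) := by
  refine ⟨fun S hS => ⟨C2 K inferInstance n S hS, length_lagr S, field_tfae n S hS⟩,
    fun p hp => ⟨(D7 D2 K inferInstance n p).2 hp, ?_, ?_⟩⟩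
  · refine exists_congr fun x => ?_
    simp [critSys]
  · refine exists_congr fun x => ?_
    simp [critSys]

end Pool.Agent.Results.MP_57f271_lc.CubicSingularities
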