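import Pool.Agent.H546R2.BS.D1

set_option autoImplicit false

/-!
# Hilbert's Nullstellensatz over the complex numbers needs time `N ^ (4/3)`

The machines (`Machine`), computation trees (`Tree`), systems (`Coef`, `Solvable`, `Solvable01`,
`size`) and encodings (`Encoding`) are defined in `Pool/Agent/H546R2/BS`.
-/

namespace Pool.Agent.Results.MP_57f271_lc.FourThirdsPower

open Pool.Agent.H546R2.BS

/-- The branching condition of the machines over `ℂ`. -/
abbrev isZero (x : ℂ) : Prop := x = 0

theorem result :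
    -- (1) Machines deciding `HN/ℂ` with time bound `t`.
    (∀ (E : Encoding ℂ) (M : Machine ℂ) (t : ℕ → ℕ), Monotone t →
      (∀ (m k : ℕ) (deg : Fin k → ℕ) (a : Coef (Fin m) deg → ℂ), ∃ b : Bool,
        M.answer isZero (t (size m deg)) (E.code a) = some b ∧ (b = true ↔ Solvable deg a)) →
      ∀ N, 30000 ≤ N → N ^ 4 ≤ (200000 * t N) ^ 3) ∧
    -- (2) Nondeterministic machines which distinguish the systems without common zero from the
    -- systems with a common zero in `{0, 1} ^ m`, with time bound `t` and `g` guesses.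
    (∀ (E : Encoding ℂ) (M : Machine ℂ) (t g : ℕ → ℕ), Monotone t → Monotone g →
      (∀ (m k : ℕ) (deg : Fin k → ℕ) (a : Coef (Fin m) deg → ℂ), Solvable01 deg a →
        ¬ ∃ y : Fin (g (size m deg)) → ℂ,
          M.answer isZero (t (size m deg)) (E.code a ++ List.ofFn y) = some true) →
      (∀ (m k : ℕ) (deg : Fin k → ℕ) (a : Coef (Fin m) deg → ℂ), ¬ Solvable deg a →
        ∃ y : Fin (g (size m deg)) → ℂ,
          M.answer isZero (t (size m deg)) (E.code a ++ List.ofFn y) = some true) →
      ∀ N, 30000 ≤ N → N ^ 4 ≤ (200000 * (t N + g N)) ^ 3) ∧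
    -- (3) The same for computation trees for one format, and the linear upper bound for the
    -- nondeterministic recognition of solvability.
    (∀ n, 5 ≤ n → ∃ deg : Fin (4 * n + 4) → ℕ, (∀ i, deg i ≤ 3) ∧
      n ^ 3 ≤ size (4 * n) deg ∧ size (4 * n) deg ≤ 240 * n ^ 3 ∧
      ∀ (N : ℕ) (ord : Fin N ≃ Coef (Fin (4 * n)) deg),
        (∃ T : H546R2.BS.Tree ℂ, T.depth ≤ 6 * N ∧ ∀ a : Coef (Fin (4 * n)) deg → ℂ,
          (∃ y : Fin (4 * n) → ℂ, T.Acc isZero (List.ofFn (a ∘ ord) ++ List.ofFn y)) ↔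
            Solvable deg a) ∧
        ∀ (T : H546R2.BS.Tree ℂ) (g : ℕ),
          (∀ a : Coef (Fin (4 * n)) deg → ℂ, Solvable01 deg a →
            ¬ ∃ y : Fin g → ℂ, T.Acc isZero (List.ofFn (a ∘ ord) ++ List.ofFn y)) →
          (∀ a : Coef (Fin (4 * n)) deg → ℂ, ¬ Solvable deg a →
            ∃ y : Fin g → ℂ, T.Acc isZero (List.ofFn (a ∘ ord) ++ List.ofFn y)) →
          N ^ 4 ≤ (30000 * (T.depth + g)) ^ 3) := by
  have h01 : ∀ (m k : ℕ) (deg : Fin k → ℕ) (a : Coef (Fin m) deg → ℂ), Solvable01 deg a →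
      Solvable deg a := fun m k deg a ⟨z, _, hz⟩ => ⟨z, hz⟩
  refine ⟨?_, ?_, ?_⟩
  · intro E M t ht hM N hN
    refine machine_lower_det hard_complex E M t ht ?_ ?_ N hN
    · intro m k deg a ha
      obtain ⟨b, hb1, hb2⟩ := hM m k deg a
      rw [hb1, hb2.mpr (h01 m k deg a ha)]
    · intro m k deg a ha
      obtain ⟨b, hb1, hb2⟩ := hM m k deg a
      rw [hb1]
      cases b
      · rfl
      · exact absurd (hb2.mp rfl) ha
  · intro E M t g ht hg hM₀ hM₁ N hN
    exact machine_lower hard_complex E M true t g ht hg hM₀ hM₁ N hN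
  · intro n hn
    refine ⟨degF n, degF_le n, le_size n, size_le n (by omega), ?_⟩
    intro N ord
    have hN : N = size (4 * n) (degF n) := by
      have := Fintype.card_congr ord
      rwa [Fintype.card_fin] at this
    refine ⟨?_, ?_⟩
    · exact tree_solvable (degF n) ord (zeroTestEq ℂ) 3 (degF_le n)
    · intro T g hT₀ hT₁
      have h := lower_format hard_complex n hn ord T g hT₀ hT₁
      exact pow_form (by rw [hN]; exact size_le n (by omega)) h

end Pool.Agent.Results.MP_57f271_lc.FourThirdsPower
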