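import Pool.Agent.H522R3.HN.Conv

set_option autoImplicit false

/-!
Algebraic networks with arbitrary gates (field operations, constants, tests, ...) which decide Hilbert's
Nullstellensatz and are symmetric under `2 ^ r` exchanges of variables inside disjoint pairs of variables have at
least `2 ^ (r / 2000)` gates.
-/

namespace Pool.Agent.Results.MP_57f271_lc.SwapSymmetry

open H522R3.HN Pool.Agent.H30R2.PS

theorem result (K : Type) [Field K] :
    -- the lower bound
    (∀ (n M r p d : ℕ), 3 ≤ d → 3 * r + 1 ≤ M → ∀ (ρ : Fin p × ZMod 2 ↪ Fin n)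
      (D : AddSubgroup (Fin p → ZMod 2)), Nat.card D = 2 ^ r →
      ∀ (Gt : Type) [Fintype Gt] (N : Net (Fin M × (Fin n →₀ ℕ)) K Gt), Decides d N →
      (∀ a ∈ D, SymUnder N (swapVars ρ a)) → 2 ^ (r / 2000) ≤ Fintype.card Gt) ∧
    -- symmetrisation
    (∀ (n M d : ℕ) (D : Subgroup (Equiv.Perm (Fin n))) (Gt : Type) [Fintype Gt]
      (N : Net (Fin M × (Fin n →₀ ℕ)) K Gt), Decides d N →
      ∃ (Gt' : Type) (_ : Fintype Gt') (N' : Net (Fin M × (Fin n →₀ ℕ)) K Gt'), Decides d N' ∧
        (∀ π ∈ D, SymUnder N' π) ∧ Fintype.card Gt' = Nat.card D * Fintype.card Gt + 1 ∧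
        ∀ g', N'.inp g' = none → N'.F g' = Multiset.prod ∨ ∃ g, N.inp g = none ∧ N'.F g' = N.F g) := by
  constructor
  · intro n M r p d hd hM ρ D hD Gt _ N hdec hsym
    exact lower K n M r p hM ρ D hD Gt N (fun f hf => hdec f (fun i => (hf i).trans hd)) hsym
  · intro n M d D Gt _ N hdec
    classical
    refine ⟨Option (D × Gt), inferInstance, symNet N D, symNet_decides d N D hdec,
      fun π hπ => symNet_sym N D ⟨π, hπ⟩, ?_, ?_⟩
    · rw [Fintype.card_option, Fintype.card_prod, Nat.card_eq_fintype_card]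
    · intro g' hg'
      rcases g' with _ | ⟨d', g⟩
      · exact Or.inl rfl
      · refine Or.inr ⟨g, ?_, rfl⟩
        have h1 : (N.inp g).map (ren M d'.1) = none := hg'
        exact Option.map_eq_none_iff.mp h1

end Pool.Agent.Results.MP_57f271_lc.SwapSymmetry
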